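import Mathlib

/-!
# MP_fafee5_lc, Q1: automatic continuity does not imply automatic homeomorphicity

We work with closed submonoids of `Function.End Ω`, with `Ω` a countably infinite set and the
topology of pointwise convergence (`Ω` discrete).

The example: the commutative idempotent monoid `(ω + 1, min)` is countable, and in its left
regular representation it is a closed discrete submonoid, so that it trivially has automatic
continuity.  On the other hand `{k ↦ min k n : n ∈ ω} ∪ {id}` is a closed submonoid of `ω^ω`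
which is algebraically isomorphic to it, but is not discrete.
-/

set_option linter.style.haveILetI false
set_option warn.classDefReducibility false

namespace Pool.Agent.Results.MP_fafee5_lc.ContNotHomeo

universe u

/-- The topology of pointwise convergence on the monoid `Function.End Ω` of all maps `Ω → Ω`
(product topology, `Ω` discrete). -/
def endTop (Ω : Type u) : TopologicalSpace (Function.End Ω) :=
  @Pi.topologicalSpace Ω (fun _ => Ω) (fun _ => ⊥)

/-- `S` belongs to the class `𝓜` of closed submonoids of `Ω^Ω`. -/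
def IsMember {Ω : Type u} (S : Submonoid (Function.End Ω)) : Prop :=
  @IsClosed _ (endTop Ω) (S : Set (Function.End Ω))

/-- The subspace topology of a submonoid of `Ω^Ω`. -/
def subTop {Ω : Type u} (S : Submonoid (Function.End Ω)) : TopologicalSpace S :=
  @instTopologicalSpaceSubtype _ _ (endTop Ω)

/-- Automatic continuity with respect to `𝓜`: every semigroup homomorphism to a member of `𝓜`
is continuous. -/
def AutomaticContinuity {Ω : Type u} (S : Submonoid (Function.End Ω)) : Prop :=
  ∀ T : Submonoid (Function.End Ω), IsMember T → ∀ f : S →ₙ* T,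
    @Continuous _ _ (subTop S) (subTop T) f

/-- Automatic homeomorphicity with respect to `𝓜`: every algebraic isomorphism onto a member of
`𝓜` is a homeomorphism. -/
def AutomaticHomeomorphicity {Ω : Type u} (S : Submonoid (Function.End Ω)) : Prop :=
  ∀ T : Submonoid (Function.End Ω), IsMember T → ∀ f : S ≃* T,
    @IsHomeomorph _ _ (subTop S) (subTop T) f

variable {Ω : Type u}

/-- Points of the closure agree with members on two given points. -/
theorem agree {A : Set (Function.End Ω)} {f : Function.End Ω}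
    (hf : f ∈ @closure _ (endTop Ω) A) (a b : Ω) : ∃ g ∈ A, g a = f a ∧ g b = f b := by
  letI : TopologicalSpace Ω := ⊥
  haveI : DiscreteTopology Ω := ⟨rfl⟩
  letI : TopologicalSpace (Function.End Ω) := endTop Ω
  have hca : Continuous (fun g : Function.End Ω => g a) :=
    @continuous_apply Ω (fun _ => Ω) (fun _ => ⊥) a
  have hcb : Continuous (fun g : Function.End Ω => g b) :=
    @continuous_apply Ω (fun _ => Ω) (fun _ => ⊥) b
  have ho : IsOpen {g : Function.End Ω | g a = f a ∧ g b = f b} := by
    have h1 : IsOpen ((fun g : Function.End Ω => g a) ⁻¹' {f a}) :=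
      (isOpen_discrete _).preimage hca
    have h2 : IsOpen ((fun g : Function.End Ω => g b) ⁻¹' {f b}) :=
      (isOpen_discrete _).preimage hcb
    exact h1.inter h2
  obtain ⟨g, hg, hgA⟩ := mem_closure_iff.1 hf _ ho ⟨rfl, rfl⟩
  exact ⟨g, hgA, hg⟩

/-- The submonoid attached to a family `F : ℕ∞ → Ω^Ω` turning `min` into composition. -/
def mon (F : ℕ∞ → Function.End Ω) (h1 : F ⊤ = 1) (hm : ∀ m n, F m * F n = F (min m n)) :
    Submonoid (Function.End Ω) where
  carrier := Set.range F
  one_mem' := ⟨⊤, h1⟩
  mul_mem' := by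
    rintro _ _ ⟨m, rfl⟩ ⟨n, rfl⟩
    exact ⟨min m n, (hm m n).symm⟩

/-- The two submonoids attached to two such injective families are isomorphic. -/
noncomputable def iso (F G : ℕ∞ → Function.End Ω) (h1 : F ⊤ = 1)
    (hm : ∀ m n, F m * F n = F (min m n)) (h1' : G ⊤ = 1)
    (hm' : ∀ m n, G m * G n = G (min m n)) (hF : Function.Injective F)
    (hG : Function.Injective G) : mon F h1 hm ≃* mon G h1' hm' where
  toFun x := ⟨G x.2.choose, ⟨_, rfl⟩⟩
  invFun x := ⟨F x.2.choose, ⟨_, rfl⟩⟩
  left_inv := by
    rintro ⟨x, hx⟩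
    apply Subtype.ext
    have h2 : (⟨_, rfl⟩ : ∃ y, G y = G hx.choose).choose = hx.choose :=
      hG (⟨_, rfl⟩ : ∃ y, G y = G hx.choose).choose_spec
    show F (⟨_, rfl⟩ : ∃ y, G y = G hx.choose).choose = x
    rw [h2]
    exact hx.choose_spec
  right_inv := by
    rintro ⟨x, hx⟩
    apply Subtype.ext
    have h2 : (⟨_, rfl⟩ : ∃ y, F y = F hx.choose).choose = hx.choose :=
      hF (⟨_, rfl⟩ : ∃ y, F y = F hx.choose).choose_spec
    show G (⟨_, rfl⟩ : ∃ y, F y = F hx.choose).choose = x
    rw [h2]
    exact hx.choose_spec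
  map_mul' := by
    rintro ⟨x, hx⟩ ⟨y, hy⟩
    apply Subtype.ext
    show G (_ : ∃ z, F z = x * y).choose = G hx.choose * G hy.choose
    rw [hm']
    congr 1
    apply hF
    rw [← hm, hx.choose_spec, hy.choose_spec]
    exact (_ : ∃ z, F z = x * y).choose_spec

/-- The regular representation of `(ω + 1, min)`. -/
noncomputable def regF (e : Ω ≃ ℕ∞) (m : ℕ∞) : Function.End Ω := fun x => e.symm (min m (e x))

/-- The representation `k ↦ min k m` on `ω`. -/
noncomputable def cutF (e : Ω ≃ ℕ) (m : ℕ∞) : Function.End Ω := fun x => e.symm (min m (e x : ℕ∞)).toNat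

theorem cut_val (e : Ω ≃ ℕ) (m : ℕ∞) (x : Ω) :
    ((e (cutF e m x) : ℕ) : ℕ∞) = min m (e x : ℕ∞) := by
  simp only [cutF, Equiv.apply_symm_apply]
  exact ENat.natCast_toNat (ne_of_lt (lt_of_le_of_lt (min_le_right _ _) (ENat.natCast_lt_top _)))

theorem reg_one (e : Ω ≃ ℕ∞) : regF e ⊤ = 1 := by
  funext x
  show e.symm (min ⊤ (e x)) = x
  simp

theorem reg_mul (e : Ω ≃ ℕ∞) (m n : ℕ∞) : regF e m * regF e n = regF e (min m n) := by
  funext x
  show regF e m (regF e n x) = _
  simp [regF, min_assoc]

theorem cut_one (e : Ω ≃ ℕ) : cutF e ⊤ = 1 := by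
  funext x
  show e.symm (min ⊤ (e x : ℕ∞)).toNat = x
  simp

theorem cut_mul (e : Ω ≃ ℕ) (m n : ℕ∞) : cutF e m * cutF e n = cutF e (min m n) := by
  funext x
  show cutF e m (cutF e n x) = _
  apply e.injective
  have h : ((e (cutF e m (cutF e n x)) : ℕ) : ℕ∞) = (e (cutF e (min m n) x) : ℕ) := by
    rw [cut_val, cut_val, cut_val, min_assoc]
  exact_mod_cast h

theorem reg_inj (e : Ω ≃ ℕ∞) : Function.Injective (regF e) := by
  intro m n h
  have := congrFun h (e.symm ⊤)
  simpa [regF] using this

theorem cut_inj (e : Ω ≃ ℕ) : Function.Injective (cutF e) := by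
  have key : ∀ m n : ℕ∞, m < n → cutF e m ≠ cutF e n := by
    intro m n hmn h
    obtain ⟨k, rfl⟩ := ENat.ne_top_iff_exists.1 (ne_of_lt (lt_of_lt_of_le hmn le_top))
    have h1 := cut_val e (k : ℕ∞) (e.symm (k + 1))
    have h2 := cut_val e n (e.symm (k + 1))
    rw [h] at h1
    rw [h1] at h2
    simp only [Equiv.apply_symm_apply] at h2
    have h3 : min (k : ℕ∞) ((k + 1 : ℕ) : ℕ∞) = k :=
      min_eq_left (by exact_mod_cast Nat.le_succ k)
    rw [h3] at h2
    have h4 : (k : ℕ∞) < min n ((k + 1 : ℕ) : ℕ∞) :=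
      lt_min hmn (by exact_mod_cast Nat.lt_succ_self k)
    exact (ne_of_lt h4) h2
  intro m n h
  by_contra hne
  rcases lt_or_gt_of_ne hne with h1 | h1
  · exact key m n h1 h
  · exact key n m h1 h.symm

theorem reg_closed (e : Ω ≃ ℕ∞) : IsMember (mon (regF e) (reg_one e) (reg_mul e)) := by
  letI : TopologicalSpace (Function.End Ω) := endTop Ω
  refine isClosed_of_closure_subset ?_
  intro f hf
  refine ⟨e (f (e.symm ⊤)), ?_⟩
  funext x
  obtain ⟨g, ⟨m, rfl⟩, h1, h2⟩ := agree hf (e.symm ⊤) x
  have h3 : m = e (f (e.symm ⊤)) := by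
    rw [← h1]
    simp [regF]
  rw [← h3]
  exact h2

theorem cut_closed (e : Ω ≃ ℕ) : IsMember (mon (cutF e) (cut_one e) (cut_mul e)) := by
  letI : TopologicalSpace (Function.End Ω) := endTop Ω
  refine isClosed_of_closure_subset ?_
  intro f hf
  by_cases hid : ∀ x, f x = x
  · refine ⟨⊤, ?_⟩
    rw [cut_one]
    funext x
    exact (hid x).symm
  · push Not at hid
    obtain ⟨k, hk⟩ := hid
    obtain ⟨g, ⟨m, rfl⟩, h1, -⟩ := agree hf k k
    have hmk : m < (e k : ℕ∞) := by
      by_contra hcon
      have h2 := cut_val e m k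
      rw [min_eq_right (not_lt.1 hcon)] at h2
      have h3 : e (cutF e m k) = e k := by exact_mod_cast h2
      exact hk (h1 ▸ e.injective h3)
    refine ⟨m, ?_⟩
    funext x
    obtain ⟨g, ⟨n, rfl⟩, h3, h4⟩ := agree hf k x
    have h5 : n = m := by
      have h6 := cut_val e n k
      have h7 := cut_val e m k
      rw [h3, ← h1, h7, min_eq_left hmk.le] at h6
      rcases le_total n (e k : ℕ∞) with h8 | h8
      · rw [min_eq_left h8] at h6
        exact h6.symm
      · rw [min_eq_right h8] at h6
        exact absurd h6 (ne_of_lt hmk)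
    rw [← h5]
    exact h4

/-- The regular representation is discrete. -/
theorem reg_discrete (e : Ω ≃ ℕ∞) :
    @DiscreteTopology _ (subTop (mon (regF e) (reg_one e) (reg_mul e))) := by
  letI : TopologicalSpace Ω := ⊥
  haveI : DiscreteTopology Ω := ⟨rfl⟩
  letI : TopologicalSpace (Function.End Ω) := endTop Ω
  letI := subTop (mon (regF e) (reg_one e) (reg_mul e))
  rw [discreteTopology_iff_isOpen_singleton]
  rintro ⟨f, m, rfl⟩
  have hc : Continuous (fun g : Function.End Ω => g (e.symm ⊤)) :=
    @continuous_apply Ω (fun _ => Ω) (fun _ => ⊥) _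
  have hc2 : Continuous (fun g : mon (regF e) (reg_one e) (reg_mul e) =>
      (g : Function.End Ω) (e.symm ⊤)) :=
    hc.comp (@continuous_subtype_val _ (endTop Ω) _)
  have ho := (isOpen_discrete {e.symm m}).preimage hc2
  convert ho using 1
  ext ⟨g, n, rfl⟩
  simp only [Set.mem_singleton_iff, Set.mem_preimage, Subtype.mk.injEq]
  constructor
  · intro h
    have h' : regF e n = regF e m := h
    rw [(reg_inj e) h']
    simp [regF]
  · intro h
    have : n = m := by
      have h2 : e.symm (min n (e (e.symm ⊤))) = e.symm m := h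
      simpa using h2
    rw [this]

/-- **MP_fafee5_lc, Q1 (positive answer).** For every countably infinite set `Ω` there is a closed
submonoid of `Ω^Ω` which has automatic continuity, but not automatic homeomorphicity, with respect
to the class of closed submonoids of `Ω^Ω`. -/
theorem result (Ω : Type u) [Countable Ω] [Infinite Ω] :
    ∃ S : Submonoid (Function.End Ω), IsMember S ∧ AutomaticContinuity S ∧
      ¬ AutomaticHomeomorphicity S := by
  obtain ⟨e⟩ : Nonempty (Ω ≃ ℕ) := by
    haveI := Encodable.ofCountable Ω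
    haveI := Denumerable.ofEncodableOfInfinite Ω
    exact ⟨Denumerable.eqv Ω⟩
  obtain ⟨e'⟩ : Nonempty (ℕ ≃ ℕ∞) := by
    haveI : Countable ℕ∞ := inferInstanceAs (Countable (WithTop ℕ))
    haveI : Infinite ℕ∞ := Infinite.of_injective (fun n : ℕ => (n : ℕ∞)) Nat.cast_injective
    haveI := Encodable.ofCountable ℕ∞
    haveI := Denumerable.ofEncodableOfInfinite ℕ∞
    exact ⟨(Denumerable.eqv ℕ∞).symm⟩
  let r : Ω ≃ ℕ∞ := e.trans e'
  refine ⟨mon (regF r) (reg_one r) (reg_mul r), reg_closed r, ?_, ?_⟩
  · intro T _ f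
    letI := subTop (mon (regF r) (reg_one r) (reg_mul r))
    letI := subTop T
    haveI := reg_discrete r
    exact continuous_of_discreteTopology
  · intro hA
    let T := mon (cutF e) (cut_one e) (cut_mul e)
    let f : mon (regF r) (reg_one r) (reg_mul r) ≃* T :=
      iso (regF r) (cutF e) (reg_one r) (reg_mul r) (cut_one e) (cut_mul e) (reg_inj r)
        (cut_inj e)
    have hh := hA T (cut_closed e) f
    letI : TopologicalSpace Ω := ⊥
    haveI : DiscreteTopology Ω := ⟨rfl⟩
    letI : TopologicalSpace (Function.End Ω) := endTop Ω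
    letI := subTop (mon (regF r) (reg_one r) (reg_mul r))
    letI := subTop T
    haveI := reg_discrete r
    have hd : DiscreteTopology T := (hh.homeomorph).symm.isEmbedding.discreteTopology
    let t : ℕ → T := fun n => ⟨cutF e n, ⟨_, rfl⟩⟩
    let t' : T := ⟨cutF e ⊤, ⟨_, rfl⟩⟩
    have ht : Filter.Tendsto t Filter.atTop (nhds t') := by
      have hi : Topology.IsInducing (Subtype.val : T → Function.End Ω) := ⟨rfl⟩
      rw [hi.tendsto_nhds_iff]
      have : Filter.Tendsto (fun n x => (t n : Function.End Ω) x) Filter.atTop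
          (nhds (fun x => (t' : Function.End Ω) x)) := by
        rw [tendsto_pi_nhds]
        intro x
        refine tendsto_nhds_of_eventually_eq ?_
        filter_upwards [Filter.eventually_ge_atTop (e x)] with n hn
        apply e.injective
        have h1 := cut_val e (n : ℕ∞) x
        have h2 := cut_val e ⊤ x
        rw [min_eq_right (by exact_mod_cast hn)] at h1
        rw [min_eq_right le_top] at h2
        have h3 : ((e (cutF e n x) : ℕ) : ℕ∞) = (e (cutF e ⊤ x) : ℕ) := by rw [h1, h2]
        exact_mod_cast h3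
      exact this
    rw [nhds_discrete, Filter.tendsto_pure] at ht
    obtain ⟨n, hn⟩ := ht.exists
    have h1 : cutF e n = cutF e ⊤ := congrArg Subtype.val hn
    have h2 := cut_inj e h1
    exact ENat.natCast_ne_top n h2

end Pool.Agent.Results.MP_fafee5_lc.ContNotHomeo
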